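import Pool.Agent.Lib.helper11.TorE8

/-! The form `10H ⊕ E₈` arises from a class in `H⁴(ℤ⁸)`. -/

namespace Pool.Agent.Results.MP_9b3cbe_gt.E8Form

/-- The cohomology ring `H*(ℤ⁸)`, the exterior algebra on `ℤ⁸`. -/
abbrev Λ : Type := ExteriorAlgebra ℤ (Fin 8 → ℤ)

/-- `Hᵏ(ℤ⁸) = Λᵏ ℤ⁸`. -/
noncomputable def Coh (k : ℕ) : Submodule ℤ Λ := ExteriorAlgebra.exteriorPower ℤ k (Fin 8 → ℤ)

/-- The generator `e₁ ∧ ⋯ ∧ e₈` of `H⁸(ℤ⁸)`. -/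
noncomputable def T : Λ := ExteriorAlgebra.ιMulti ℤ 8 fun k => Pi.single k 1

/-- Index set of size `2 * 10 + 8 = 28`. -/
abbrev I : Type := (Fin 2 × Fin 10) ⊕ Fin 8

/-- Gram matrix of the hyperbolic plane `H`. -/
def Hyp : Matrix (Fin 2) (Fin 2) ℤ := !![0, 1; 1, 0]

/-- Gram matrix of `10H ⊕ E₈`. -/
def Gram : Matrix I I ℤ :=
  Matrix.fromBlocks (Matrix.blockDiagonal fun _ : Fin 10 => Hyp) 0 0 CartanMatrix.E₈

/-- `b` is a `ℤ`-basis of `H²(ℤ⁸)`. -/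
def IsBasis (b : I → Λ) : Prop :=
  LinearIndependent ℤ b ∧ Submodule.span ℤ (Set.range b) = Coh 2

/-- `x ∧ y ∧ ω = c [T]`, that is `φ_ω(x, y) = c`. -/
def Pairs (ω x y : Λ) (c : ℤ) : Prop := x * y * ω = c • T

theorem result : ∃ ω ∈ Coh 4, ∃ b : I → Λ, IsBasis b ∧ ∀ i j, Pairs ω (b i) (b j) (Gram i j) := by
  obtain ⟨ω, b, h⟩ := TorE8.main
  refine ⟨ω.1, ω.2, fun i => (b i).1, ⟨b.linearIndependent.map' (TorE8.Coh 2).subtype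
    (Submodule.ker_subtype _), ?_⟩, h⟩
  change Submodule.span ℤ (Set.range ((TorE8.Coh 2).subtype ∘ b)) = TorE8.Coh 2
  rw [Set.range_comp, ← Submodule.map_span, b.span_eq, Submodule.map_top, Submodule.range_subtype]

end Pool.Agent.Results.MP_9b3cbe_gt.E8Form
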